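import Mathlib
import Pool.Agent.P.MP_b90300_al.Defs
import Pool.Agent.P.MP_b90300_al.Assembly

namespace Pool.Agent.Results.MP_b90300_al.MonomialRealization

universe u

open Pool.Agent.P.MP_b90300_al

/-- Every asymptotically periodic positive numerical function is the symbolic depth function of a
monomial ideal in a polynomial ring over any given field `K`. -/
theorem result (K : Type u) [Field K] (φ : ℕ → ℕ) (hpos : ∀ t, 1 ≤ t → 1 ≤ φ t)
    (hper : ∃ p t₀ : ℕ, 1 ≤ p ∧ 1 ≤ t₀ ∧ ∀ t, t₀ ≤ t → φ (t + p) = φ t) :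
    ∃ (r : ℕ) (I : Ideal (MvPolynomial (Fin r) K)), IsMonomialIdeal I ∧
      ∀ t, 1 ≤ t → symbolicPower I t ≠ ⊤ ∧ depth (symbolicPower I t) = (φ t : ℕ∞) := by
  obtain ⟨p, t₀, hp, ht₀, h⟩ := hper
  obtain ⟨N, hN, hN'⟩ := exists_period hp ht₀ h
  obtain ⟨M, hM⟩ := exists_bound hN hN'
  refine ⟨Fintype.card (Var M), MI (Fintype.equivFin (Var M)) K (⋂ i, UU φ M N i), ⟨_, rfl⟩,
    fun t ht => ?_⟩
  have h1 := hpos t ht
  have h2 := hM t
  have hd := depth_UU hN hN' (Fintype.equivFin (Var M)) K (j := ⟨φ t - 1, by omega⟩) ht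
    (by simp only; omega)
  refine ⟨fun htop => ?_, hd⟩
  rw [htop] at hd
  have h0 : depth (⊤ : Ideal (MvPolynomial (Fin (Fintype.card (Var M))) K)) = 0 := by
    refine le_antisymm (iSup_le fun rs => iSup_le fun _ => iSup_le fun hreg => ?_) bot_le
    exact (not_subsingleton_iff_nontrivial.2 hreg.nontrivial inferInstance).elim
  rw [h0] at hd
  have : φ t = 0 := by exact_mod_cast hd.symm
  omega

end Pool.Agent.Results.MP_b90300_al.MonomialRealization
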